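import Pool.Agent.Helper86.QA.St5

/-!
# Project QD, part A (MP_d112a4_gt), module MQ2: the kernel of the smeared fundamental cycle
-/

set_option autoImplicit false

open MeasureTheory Matrix Set Topology Filter
open scoped ENNReal ComplexConjugate ComplexOrder

namespace Pool.Agent.Helper89.QA

open Pool.Agent.Helper86.QA Pool.Agent.Helper20

/-! ### Measurability -/

private theorem meas_mob (A : SL) : Measurable (QD.mob A) := by
  unfold QD.mob
  fun_prop

private theorem meas_mq : Measurable (fun p : ℂ × ℂ => mq p.1 p.2) := by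
  unfold mq
  have h1 : Measurable (fun p : ℂ × ℂ => p.2 - p.1) := by fun_prop
  have h2 : Measurable (fun p : ℂ × ℂ => 1 - conj p.1 * p.2) := by
    have : Continuous (fun p : ℂ × ℂ => 1 - conj p.1 * p.2) := by
      have h3 : Continuous (fun p : ℂ × ℂ => conj p.1) :=
        Complex.continuous_conj.comp continuous_fst
      fun_prop
    exact this.measurable
  exact h1.div h2

private theorem meas_k2 (ε : ℝ) : Measurable (fun p : ℂ × ℂ => k2 ε p.1 p.2) := by
  unfold k2
  refine Measurable.ite ?_ measurable_const measurable_const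
  exact measurableSet_lt meas_mq.norm measurable_const

private theorem meas_dt2 : Measurable (fun p : ℂ × ℂ => dt2 p.1 p.2) := by
  unfold dt2
  have : Continuous (fun p : ℂ × ℂ => p.1.re * p.2.im - p.1.im * p.2.re) := by fun_prop
  exact this.measurable

private theorem meas_K2 (ε : ℝ) : Measurable (fun p : ℂ × ℂ × ℂ => K2 ε p.1 p.2.1 p.2.2) := by
  unfold K2
  have a1 : Measurable (fun p : ℂ × ℂ × ℂ => (p.1, p.2.1)) := by fun_prop
  have a2 : Measurable (fun p : ℂ × ℂ × ℂ => (p.1, p.2.2)) := by fun_prop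
  have m1 : Measurable (fun p : ℂ × ℂ × ℂ => mq p.1 p.2.1) := meas_mq.comp a1
  have m2' : Measurable (fun p : ℂ × ℂ × ℂ => mq p.1 p.2.2) := meas_mq.comp a2
  have k1 : Measurable (fun p : ℂ × ℂ × ℂ => k2 ε p.1 p.2.1) := (meas_k2 ε).comp a1
  have k2' : Measurable (fun p : ℂ × ℂ × ℂ => k2 ε p.1 p.2.2) := (meas_k2 ε).comp a2
  have d : Measurable (fun p : ℂ × ℂ × ℂ => dt2 (mq p.1 p.2.1) (mq p.1 p.2.2)) :=
    meas_dt2.comp (m1.prodMk m2')
  exact (d.mul k1).mul k2'

private theorem meas_K2a (ε : ℝ) (a b : ℂ) : Measurable (fun u : ℂ => K2 ε u a b) := by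
  have h1 : Measurable (fun u : ℂ => (u, (a, b))) :=
    measurable_id.prodMk (measurable_const.prodMk measurable_const)
  exact (meas_K2 ε).comp h1

/-! ### Algebra -/

private theorem dt2_neg_left (u v : ℂ) : dt2 (-u) v = - dt2 u v := by
  unfold dt2; simp only [Complex.neg_re, Complex.neg_im]; ring

private theorem dt2_neg_right (u v : ℂ) : dt2 u (-v) = - dt2 u v := by
  unfold dt2; simp only [Complex.neg_re, Complex.neg_im]; ring

private theorem dt2_conj (u v : ℂ) : dt2 (conj u) (conj v) = - dt2 u v := by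
  unfold dt2; simp only [Complex.conj_re, Complex.conj_im]; ring

private theorem dt2_rot (w u v : ℂ) (hw : ‖w‖ = 1) : dt2 (w * u) (w * v) = dt2 u v := by
  have h : w.re * w.re + w.im * w.im = 1 := by
    have := Complex.normSq_apply w
    rw [Complex.normSq_eq_norm_sq, hw] at this
    linarith
  unfold dt2
  simp only [Complex.mul_re, Complex.mul_im]
  linear_combination (u.re * v.im - u.im * v.re) * h

private theorem dt2_le (u v : ℂ) : |dt2 u v| ≤ ‖u‖ * ‖v‖ := by
  have h : dt2 u v = (conj u * v).im := by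
    unfold dt2; simp only [Complex.mul_im, Complex.conj_re, Complex.conj_im]; ring
  rw [h]
  refine (Complex.abs_im_le_norm _).trans ?_
  rw [norm_mul, RCLike.norm_conj]

private theorem mq_norm_symm (x y : ℂ) : ‖mq x y‖ = ‖mq y x‖ := by
  unfold mq
  rw [norm_div, norm_div, norm_sub_rev y x]
  congr 1
  rw [← RCLike.norm_conj]
  congr 1
  simp only [map_sub, map_one, map_mul, Complex.conj_conj]
  ring

private theorem k2_symm (ε : ℝ) (x y : ℂ) : k2 ε x y = k2 ε y x := by
  unfold k2
  rw [mq_norm_symm x y]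

private theorem k2_nonneg (ε : ℝ) (x y : ℂ) : 0 ≤ k2 ε x y := by
  unfold k2
  split_ifs <;> norm_num

private theorem K2_le (ε : ℝ) (h1 : ε < 1) (x y z : ℂ) :
    |K2 ε x y z| ≤ k2 ε x y * k2 ε x z := by
  unfold K2
  by_cases hy : ‖mq x y‖ < ε
  · by_cases hz : ‖mq x z‖ < ε
    · have a : k2 ε x y = 1 := by unfold k2; rw [if_pos hy]
      have b : k2 ε x z = 1 := by unfold k2; rw [if_pos hz]
      rw [a, b, mul_one, mul_one, mul_one]
      refine (dt2_le _ _).trans ?_
      have h3 : ‖mq x y‖ ≤ 1 := by linarith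
      have h4 : ‖mq x z‖ ≤ 1 := by linarith
      nlinarith [norm_nonneg (mq x y), norm_nonneg (mq x z)]
    · have b : k2 ε x z = 0 := by unfold k2; rw [if_neg hz]
      rw [b]; simp
  · have b : k2 ε x y = 0 := by unfold k2; rw [if_neg hy]
    rw [b]; simp

/-! ### Invariance of integrals -/

private theorem map_mob (hMQ1 : StMQ1) (A : SL) (hA : QD.IsSU A) :
    Measure.map (QD.mob A) m2 = m2 := by
  ext s hs
  rw [Measure.map_apply (meas_mob A) hs]
  have h := hMQ1.2.2.1 A hA (s.indicator 1) (measurable_one.indicator hs)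
  rw [lintegral_indicator_one hs] at h
  rw [← h, ← lintegral_indicator_one (meas_mob A hs)]
  rfl

private theorem int_mob (hMQ1 : StMQ1) (A : SL) (hA : QD.IsSU A) (F : ℂ → ℝ)
    (hF : Measurable F) : ∫ z, F (QD.mob A z) ∂m2 = ∫ z, F z ∂m2 := by
  have h := integral_map (μ := m2) (φ := QD.mob A) (meas_mob A).aemeasurable (f := F)
    hF.aestronglyMeasurable
  rw [map_mob hMQ1 A hA] at h
  exact h.symm

private theorem int_conj (hMQ1 : StMQ1) (F : ℂ → ℝ)
    (hF : Measurable F) : ∫ z, F (conj z) ∂m2 = ∫ z, F z ∂m2 := by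
  have mc : Measurable (fun z : ℂ => conj z) := Complex.continuous_conj.measurable
  have hm : Measure.map (fun z : ℂ => conj z) m2 = m2 := by
    ext s hs
    rw [Measure.map_apply mc hs]
    have h := hMQ1.2.2.2.2.2.1 (s.indicator 1) (measurable_one.indicator hs)
    rw [lintegral_indicator_one hs] at h
    rw [← h, ← lintegral_indicator_one (mc hs)]
    rfl
  have h := integral_map (μ := m2) (φ := fun z : ℂ => conj z) mc.aemeasurable (f := F)
    hF.aestronglyMeasurable
  rw [hm] at h
  exact h.symm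

/-! ### Rotations -/

private noncomputable def rot (t : ℝ) : SL :=
  ⟨!![Complex.exp (t * Complex.I), 0; 0, Complex.exp (-(t * Complex.I))], by
    rw [Matrix.det_fin_two_of, mul_zero, sub_zero, ← Complex.exp_add, add_neg_cancel,
      Complex.exp_zero]⟩

private theorem rot_su (t : ℝ) : QD.IsSU (rot t) := by
  constructor
  · change Complex.exp (-(t * Complex.I)) = conj (Complex.exp (t * Complex.I))
    rw [← Complex.exp_conj]
    congr 1
    simp only [map_mul, Complex.conj_ofReal, Complex.conj_I]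
    ring
  · change (0 : ℂ) = conj (0 : ℂ)
    simp

private theorem mob_rot (t : ℝ) (z : ℂ) :
    QD.mob (rot t) z = Complex.exp (2 * t * Complex.I) * z := by
  change (Complex.exp (t * Complex.I) * z + 0) / (0 * z + Complex.exp (-(t * Complex.I))) = _
  rw [add_zero, zero_mul, zero_add, Complex.exp_neg, div_inv_eq_mul]
  have : Complex.exp (2 * t * Complex.I) =
      Complex.exp (t * Complex.I) * Complex.exp (t * Complex.I) := by
    rw [← Complex.exp_add]; congr 1; ring
  rw [this]; ring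

private theorem int_neg (hMQ1 : StMQ1) (F : ℂ → ℝ)
    (hF : Measurable F) : ∫ z, F (-z) ∂m2 = ∫ z, F z ∂m2 := by
  have h := int_mob hMQ1 (rot (Real.pi / 2)) (rot_su _) F hF
  have h2 : ∀ z : ℂ, QD.mob (rot (Real.pi / 2)) z = -z := by
    intro z
    rw [mob_rot]
    have : (2 : ℂ) * ((Real.pi / 2 : ℝ) : ℂ) * Complex.I = Real.pi * Complex.I := by
      push_cast; ring
    rw [this, Complex.exp_pi_mul_I]; ring
  simp only [h2] at h
  exact h

private theorem int_odd (hMQ1 : StMQ1) (F : ℂ → ℝ)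
    (hF : Measurable F) (ho : ∀ z, F (-z) = - F z) : ∫ z, F z ∂m2 = 0 := by
  have h := int_neg hMQ1 F hF
  simp only [ho] at h
  rw [integral_neg] at h
  linarith

private theorem rot_real (y : ℂ) :
    ∃ A : SL, QD.IsSU A ∧ QD.mob A 0 = 0 ∧ QD.mob A y = ((‖y‖ : ℝ) : ℂ) := by
  refine ⟨rot (-(Complex.arg y) / 2), rot_su _, ?_, ?_⟩
  · rw [mob_rot, mul_zero]
  · rw [mob_rot]
    have h := Complex.norm_mul_exp_arg_mul_I y
    nth_rw 2 [← h]
    rw [mul_comm, mul_assoc, ← Complex.exp_add]
    have : (Complex.arg y : ℂ) * Complex.I +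
        2 * ((-(Complex.arg y) / 2 : ℝ) : ℂ) * Complex.I = 0 := by
      push_cast; ring
    rw [this, Complex.exp_zero, mul_one]

/-! ### The invariance of the kernel -/

private theorem unit_ratio (a : ℂ) (ha : a ≠ 0) : ‖conj a / a‖ = 1 := by
  rw [norm_div, RCLike.norm_conj, div_self]
  exact norm_ne_zero_iff.mpr ha

private theorem inv_kernel (hAD1 : StAD1) (hMQ1 : StMQ1) (ε : ℝ) (A : SL) (hA : QD.IsSU A)
    (x : ℂ) (hx : x ∈ Metric.ball (0 : ℂ) 1) (y : ℂ) (hy : y ∈ Metric.ball (0 : ℂ) 1) :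
    k2 ε (QD.mob A x) (QD.mob A y) = k2 ε x y ∧
    ∀ z ∈ Metric.ball (0 : ℂ) 1,
      K2 ε (QD.mob A x) (QD.mob A y) (QD.mob A z) = K2 ε x y z := by
  have hden : QD.den A x ≠ 0 :=
    ((hAD1.2.2.2.2.1 A hA x).1 (Metric.ball_subset_closedBall hx)).1
  have hw := unit_ratio _ hden
  have hk : ∀ y ∈ Metric.ball (0 : ℂ) 1, k2 ε (QD.mob A x) (QD.mob A y) = k2 ε x y := by
    intro y hy
    unfold k2
    rw [hMQ1.2.2.2.2.1 A hA x hx y hy, norm_mul, hw, one_mul]
  refine ⟨hk y hy, fun z hz => ?_⟩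
  unfold K2
  rw [hk y hy, hk z hz, hMQ1.2.2.2.2.1 A hA x hx y hy, hMQ1.2.2.2.2.1 A hA x hx z hz,
    dt2_rot _ _ _ hw]

private theorem ae_ball (hMQ1 : StMQ1) : ∀ᵐ u ∂m2, u ∈ Metric.ball (0 : ℂ) 1 := by
  rw [ae_iff]
  exact hMQ1.2.1

private theorem I_inv (hAD1 : StAD1) (hMQ1 : StMQ1) (ε : ℝ) (A : SL) (hA : QD.IsSU A)
    (x : ℂ) (hx : x ∈ Metric.ball (0 : ℂ) 1) (y : ℂ) (hy : y ∈ Metric.ball (0 : ℂ) 1) :
    ∫ u, K2 ε u (QD.mob A x) (QD.mob A y) ∂m2 = ∫ u, K2 ε u x y ∂m2 := by
  have hm : Measurable (fun u : ℂ => K2 ε u (QD.mob A x) (QD.mob A y)) :=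
    meas_K2a ε (QD.mob A x) (QD.mob A y)
  rw [← int_mob hMQ1 A hA _ hm]
  refine integral_congr_ae ?_
  filter_upwards [ae_ball hMQ1] with u hu
  exact (inv_kernel hAD1 hMQ1 ε A hA u hu x hx).2 y hy

private theorem mq_conj (u : ℂ) (x : ℝ) : mq (conj u) (x : ℂ) = conj (mq u (x : ℂ)) := by
  unfold mq
  simp only [map_div₀, map_sub, map_one, map_mul, Complex.conj_ofReal, Complex.conj_conj]

private theorem I_real (hMQ1 : StMQ1) (ε : ℝ) (x y : ℝ) :
    ∫ u, K2 ε u (x : ℂ) (y : ℂ) ∂m2 = 0 := by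
  have hm : Measurable (fun u : ℂ => K2 ε u (x : ℂ) (y : ℂ)) := meas_K2a ε (x : ℂ) (y : ℂ)
  have h := int_conj hMQ1 _ hm
  have h2 : ∀ u : ℂ, K2 ε (conj u) (x : ℂ) (y : ℂ) = - K2 ε u (x : ℂ) (y : ℂ) := by
    intro u
    unfold K2 k2
    rw [mq_conj, mq_conj, dt2_conj, RCLike.norm_conj, RCLike.norm_conj]
    ring
  simp only [h2] at h
  rw [integral_neg] at h
  linarith

theorem hMQ2 (hAD1 : StAD1) (hMQ1 : StMQ1) : StMQ2 := by
  intro ε h0 h1
  refine ⟨?_, K2_le ε h1, ?_, meas_K2 ε, ?_⟩
  · intro A hA x hx y hy z hz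
    exact ⟨(inv_kernel hAD1 hMQ1 ε A hA x hx y hy).2 z hz,
      (inv_kernel hAD1 hMQ1 ε A hA x hx y hy).1, k2_symm ε x y⟩
  · intro x hx
    obtain ⟨A, hA, hA1, -⟩ := hMQ1.2.2.2.1 x hx
    have hmk : Measurable ((Metric.ball (0 : ℂ) ε).indicator (1 : ℂ → ℝ≥0∞)) :=
      measurable_one.indicator measurableSet_ball
    have h := hMQ1.2.2.1 A hA _ hmk
    rw [lintegral_indicator_one measurableSet_ball] at h
    rw [← h]
    refine lintegral_congr fun y => ?_
    rw [← hA1 y]
    unfold k2
    by_cases hy : ‖mq x y‖ < ε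
    · rw [if_pos hy, Set.indicator_of_mem (by rw [mem_ball_zero_iff]; exact hy)]
      simp
    · rw [if_neg hy, Set.indicator_of_notMem (by rw [mem_ball_zero_iff]; exact hy)]
      simp
  · intro x hx y hy
    obtain ⟨A, hA, hA1, -, hA2⟩ := hMQ1.2.2.2.1 x hx
    refine ⟨?_, ?_, ?_⟩
    · have hG : Measurable (fun w : ℂ => dt2 w (mq x y) *
          (if ‖w‖ < ε then (1 : ℝ) else 0) * k2 ε x y) := by
        have e1 : Measurable (fun w : ℂ => dt2 w (mq x y)) := by
          have : Measurable (fun w : ℂ => (w, mq x y)) := by fun_prop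
          exact meas_dt2.comp this
        have e2 : Measurable (fun w : ℂ => if ‖w‖ < ε then (1 : ℝ) else 0) :=
          Measurable.ite (measurableSet_lt measurable_norm measurable_const)
            measurable_const measurable_const
        exact (e1.mul e2).mul measurable_const
      have h := int_mob hMQ1 A hA _ hG
      have h3 := int_odd hMQ1 _ hG (by
        intro z
        rw [dt2_neg_left, norm_neg]; ring)
      rw [h3] at h
      rw [← h]
      refine integral_congr_ae (Eventually.of_forall fun u => ?_)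
      simp only [← hA1 u]
      rfl
    · have hG : Measurable (fun w : ℂ => dt2 (mq x y) w * k2 ε x y *
          (if ‖w‖ < ε then (1 : ℝ) else 0)) := by
        have e1 : Measurable (fun w : ℂ => dt2 (mq x y) w) := by
          have : Measurable (fun w : ℂ => (mq x y, w)) := by fun_prop
          exact meas_dt2.comp this
        have e2 : Measurable (fun w : ℂ => if ‖w‖ < ε then (1 : ℝ) else 0) :=
          Measurable.ite (measurableSet_lt measurable_norm measurable_const)
            measurable_const measurable_const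
        exact (e1.mul measurable_const).mul e2
      have h := int_mob hMQ1 A hA _ hG
      have h3 := int_odd hMQ1 _ hG (by
        intro z
        rw [dt2_neg_right, norm_neg]; ring)
      rw [h3] at h
      rw [← h]
      refine integral_congr_ae (Eventually.of_forall fun u => ?_)
      simp only [← hA1 u]
      rfl
    · rw [← I_inv hAD1 hMQ1 ε A hA x hx y hy]
      have hx0 : QD.mob A x = 0 := by
        rw [← hA1 x]; unfold mq; simp
      have hy1 : QD.mob A y ∈ Metric.ball (0 : ℂ) 1 := by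
        rw [← hA1 y]; exact (hA2 y hy).2.2.2
      obtain ⟨B, hB, hB0, hB1⟩ := rot_real (QD.mob A y)
      rw [hx0]
      have h00 : (0 : ℂ) ∈ Metric.ball (0 : ℂ) 1 := by simp
      rw [← I_inv hAD1 hMQ1 ε B hB 0 h00 _ hy1, hB0, hB1]
      have := I_real hMQ1 ε 0 (‖QD.mob A y‖)
      rw [Complex.ofReal_zero] at this
      exact this

end Pool.Agent.Helper89.QA
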