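import Pool.Agent.Helper86.QA.St1

/-!
# Project QD part A, module SW1 : unfolding
-/

set_option autoImplicit false

open MeasureTheory Matrix Set Topology
open scoped ENNReal ComplexConjugate

namespace Pool.Agent.Helper89.QA

open Pool.Agent.Helper86.QA

section

variable {Γ : Type} [Group Γ] {α : Type} [MeasurableSpace α]

omit [Group Γ] in
private theorem sw_one {a : Γ → α → α} {S D : Set α} (h : FDOn a S D) {x : α} (hx : x ∈ S) :
    ∑' γ : Γ, D.indicator (fun _ => (1 : ℝ≥0∞)) (a γ x) = 1 := by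
  obtain ⟨γ0, h1, h2⟩ := h.ex x hx
  rw [tsum_eq_single γ0]
  · exact Set.indicator_of_mem h1 _
  · intro γ hγ
    exact Set.indicator_of_notMem (fun h3 => hγ (h2 γ h3)) _

private theorem sw_inv {a : Γ → α → α} {S D : Set α} (h : FDOn a S D) {x : α} (hx : x ∈ S) :
    ∑' γ : Γ, D.indicator (fun _ => (1 : ℝ≥0∞)) (a γ⁻¹ x) = 1 := by
  exact ((Equiv.inv Γ).tsum_eq (fun γ => D.indicator (fun _ => (1 : ℝ≥0∞)) (a γ x))).trans
    (sw_one h hx)

private theorem sw_ae {a : Γ → α → α} {S : Set α} {μ : Measure α} (h : ActOn a S μ) :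
    ∀ᵐ x ∂μ, x ∈ S := by
  rw [ae_iff]
  exact h.nS

private theorem sw_a (a : Γ → α → α) (S D : Set α) (μ : Measure α)
    (f ψ : α → ℝ≥0∞) (ha : ActOn a S μ) (hD : FDOn a S D) (hf : Measurable f)
    (hinv : ∀ (γ : Γ), ∀ x ∈ S, f (a γ x) = f x) (hψ : Measurable ψ) (γ : Γ) :
    ∫⁻ x in D, f x * ψ (a γ x) ∂μ =
      ∫⁻ x, D.indicator (fun _ => (1 : ℝ≥0∞)) (a γ⁻¹ x) * (f x * ψ x) ∂μ := by
  have hm : Measurable fun x => D.indicator (fun _ => (1 : ℝ≥0∞)) (a γ⁻¹ x) * (f x * ψ x) :=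
    ((measurable_const.indicator hD.mD).comp (ha.me γ⁻¹)).mul (hf.mul hψ)
  rw [← ha.pr γ _ hm, ← lintegral_indicator hD.mD]
  refine lintegral_congr_ae ?_
  filter_upwards [sw_ae ha] with x hx
  have h1 : a γ⁻¹ (a γ x) = x := by
    rw [← ha.mul γ⁻¹ γ x hx, inv_mul_cancel, ha.one x hx]
  rw [h1, hinv γ x hx]
  by_cases hxD : x ∈ D
  · rw [Set.indicator_of_mem hxD, Set.indicator_of_mem hxD, one_mul]
  · rw [Set.indicator_of_notMem hxD, Set.indicator_of_notMem hxD, zero_mul]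

private theorem sw_b [Countable Γ] (a : Γ → α → α) (S D : Set α) (μ : Measure α)
    (f ψ : α → ℝ≥0∞) (ha : ActOn a S μ) (hD : FDOn a S D) (hf : Measurable f)
    (hinv : ∀ (γ : Γ), ∀ x ∈ S, f (a γ x) = f x) (hψ : Measurable ψ) :
    ∫⁻ x in D, f x * ∑' γ : Γ, ψ (a γ x) ∂μ = ∫⁻ x, f x * ψ x ∂μ := by
  have h1 : ∫⁻ x in D, f x * ∑' γ : Γ, ψ (a γ x) ∂μ =
      ∑' γ : Γ, ∫⁻ x in D, f x * ψ (a γ x) ∂μ := by
    have h0 : ∀ γ : Γ, AEMeasurable (fun x => f x * ψ (a γ x)) (μ.restrict D) :=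
      fun γ => (hf.mul (hψ.comp (ha.me γ))).aemeasurable
    rw [← lintegral_tsum h0]
    refine lintegral_congr fun x => ?_
    rw [ENNReal.tsum_mul_left]
  rw [h1]
  simp_rw [sw_a a S D μ f ψ ha hD hf hinv hψ]
  have h0 : ∀ γ : Γ, AEMeasurable (fun x => D.indicator (fun _ => (1 : ℝ≥0∞)) (a γ⁻¹ x) *
      (f x * ψ x)) μ :=
    fun γ => (((measurable_const.indicator hD.mD).comp (ha.me γ⁻¹)).mul
      (hf.mul hψ)).aemeasurable
  rw [← lintegral_tsum h0]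
  refine lintegral_congr_ae ?_
  filter_upwards [sw_ae ha] with x hx
  rw [ENNReal.tsum_mul_right, sw_inv hD hx, one_mul]

end

theorem hSW1 : StSW1 := by
  intro Γ _ _ α _ a S D μ _ f ha hD hf hinv
  refine ⟨fun ψ hψ => sw_b a S D μ f ψ ha hD hf hinv hψ, ?_⟩
  intro D₂ hD₂
  have h1 := sw_b a S D μ f (D₂.indicator fun _ => 1) ha hD hf hinv
    (measurable_const.indicator hD₂.mD)
  have h2 : ∫⁻ x in D, f x * ∑' γ : Γ, D₂.indicator (fun _ => (1 : ℝ≥0∞)) (a γ x) ∂μ =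
      ∫⁻ x in D, f x ∂μ := by
    refine setLIntegral_congr_fun hD.mD ?_
    intro x hx
    simp only
    rw [sw_one hD₂ (hD.sub hx), mul_one]
  have h3 : ∫⁻ x, f x * D₂.indicator (fun _ => (1 : ℝ≥0∞)) x ∂μ = ∫⁻ x in D₂, f x ∂μ := by
    rw [← lintegral_indicator hD₂.mD]
    refine lintegral_congr fun x => ?_
    by_cases hx : x ∈ D₂
    · rw [Set.indicator_of_mem hx, Set.indicator_of_mem hx, mul_one]
    · rw [Set.indicator_of_notMem hx, Set.indicator_of_notMem hx, mul_zero]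
  rw [← h2, h1, h3]

end Pool.Agent.Helper89.QA
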